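import Pool.Agent.Q269.GR.StD

/-!
# Project GR, job HTB: the Hall-Tenenbaum inequality for polynomials
-/

set_option autoImplicit false
set_option linter.all false

open scoped Classical
open Finset Polynomial

namespace Pool.Agent.Q58.GR

open Pool.Agent.Q269.GR
open Pool.Agent.H341R2.Sharp (Mon mem_Mon)

section
variable {k : Type} [Field k] [Fintype k] {Δ : k[X]}

theorem mem_Dn {n : ℕ} {D : k[X]} :
    D ∈ Dn Δ n ↔ (D.Monic ∧ D.natDegree = n) ∧ Squarefree D ∧ IsCoprime D Δ := by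
  rw [Dn, mem_filter, mem_Mon]

theorem mem_Irn {d : ℕ} {P : k[X]} :
    P ∈ Irn k d ↔ (P.Monic ∧ P.natDegree = d) ∧ Irreducible P := by
  rw [Irn, mem_filter, mem_Mon]

/-- splitting off a prime divisor -/
theorem split (hP2 : S_PRD) (hΔ : Δ ≠ 0) {n : ℕ} {D : k[X]} (hD : D ∈ Dn Δ n) {P : k[X]}
    (hP : P ∈ pr D) :
    P * (D / P) = D ∧ P ∈ Irn k P.natDegree ∧ 1 ≤ P.natDegree ∧ P.natDegree ≤ n ∧
      D / P ∈ Dn Δ (n - P.natDegree) ∧ P ∉ pr (D / P) ∧ pr D = insert P (pr (D / P)) := by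
  have hq := hP2 k Δ hΔ
  have h2 := (hq.2.1 n D hD).2.2
  obtain ⟨hm, hi, hd⟩ := (h2 P).1 hP
  obtain ⟨⟨hDm, hDn⟩, hsf, hco⟩ := mem_Dn.1 hD
  have hP0 : P ≠ 0 := hm.ne_zero
  have e : P * (D / P) = D := by
    obtain ⟨c, hc⟩ := hd
    rw [hc, mul_div_cancel_left₀ c hP0]
  set E := D / P with hE
  have hEm : E.Monic := by
    have := hDm
    rw [← e] at this
    exact hm.of_mul_monic_left this
  have hdeg : P.natDegree + E.natDegree = n := by
    rw [← hDn, ← e, hm.natDegree_mul hEm]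
  have h1 : 1 ≤ P.natDegree := hi.natDegree_pos
  have hED : E ∈ Dn Δ (n - P.natDegree) := by
    rw [mem_Dn]
    refine ⟨⟨hEm, by omega⟩, hsf.squarefree_of_dvd ⟨P, by rw [mul_comm]; exact e.symm⟩, ?_⟩
    exact hco.of_isCoprime_of_dvd_left ⟨P, by rw [mul_comm]; exact e.symm⟩
  have h3 := (hq.2.1 _ E hED).2.2
  have hPE : ¬ P ∣ E := by
    intro h
    obtain ⟨c, hc⟩ := h
    have : P * P ∣ D := ⟨c, by rw [← e, hc]; ring⟩
    exact hi.not_isUnit (hsf P this)
  refine ⟨e, mem_Irn.2 ⟨⟨hm, rfl⟩, hi⟩, h1, by omega, hED, fun h => hPE ((h3 P).1 h).2.2, ?_⟩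
  ext Q
  rw [mem_insert, h2, h3]
  constructor
  · rintro ⟨hQm, hQi, hQD⟩
    rw [← e] at hQD
    rcases hQi.prime.dvd_or_dvd hQD with h | h
    · left
      exact eq_of_monic_of_associated hQm hm (hQi.associated_of_dvd hi h)
    · exact Or.inr ⟨hQm, hQi, h⟩
  · rintro (rfl | ⟨hQm, hQi, hQE⟩)
    · exact ⟨hm, hi, hd⟩
    · exact ⟨hQm, hQi, hQE.trans ⟨P, by rw [mul_comm]; exact e.symm⟩⟩

end

theorem t_HTB (h1 : S_IRC) (h2 : S_PRD) : S_HTB := by
  intro k _ _ hk Δ hΔ g hg n hn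
  set q : ℝ := (Fintype.card k : ℝ) with hq
  have hq0 : 0 < q := by
    have : (5 : ℝ) ≤ q := by rw [hq]; exact_mod_cast hk
    linarith
  have hg0 : ∀ P, 0 ≤ g P := fun P => (hg P).1
  set G : k[X] → ℝ := fun D => ∏ P ∈ pr D, g P with hG
  have hG0 : ∀ D, 0 ≤ G D := fun D => prod_nonneg fun P _ => hg0 P
  set S : ℕ → ℝ := fun j => ∑ D ∈ Dn Δ j, G D with hS
  have hS0 : ∀ j, 0 ≤ S j := fun j => sum_nonneg fun D _ => hG0 D
  -- first inequality
  have hA : (n : ℝ) * S n ≤ ∑ d ∈ Icc 1 n, q ^ d * S (n - d) := by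
    have e1 : (n : ℝ) * S n = ∑ x ∈ (Dn Δ n).sigma pr, (x.2.natDegree : ℝ) * G x.1 := by
      rw [sum_sigma, hS]
      simp only
      rw [mul_sum]
      refine sum_congr rfl fun D hD => ?_
      rw [← sum_mul]
      congr 1
      have := ((h2 k Δ hΔ).2.1 n D hD).2.1
      rw [← Nat.cast_sum, this]
    have e2 : ∑ x ∈ (Dn Δ n).sigma pr, (x.2.natDegree : ℝ) * G x.1 ≤
        ∑ x ∈ (Dn Δ n).sigma pr, (x.2.natDegree : ℝ) * G (x.1 / x.2) := by
      refine sum_le_sum fun x hx => ?_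
      rw [mem_sigma] at hx
      obtain ⟨_, _, _, _, _, hni, hpr⟩ := split h2 hΔ hx.1 hx.2
      refine mul_le_mul_of_nonneg_left ?_ (Nat.cast_nonneg _)
      have : G x.1 = g x.2 * G (x.1 / x.2) := by
        rw [hG]
        simp only
        rw [hpr, prod_insert hni]
      rw [this]
      exact mul_le_of_le_one_left (hG0 _) (hg _).2
    set ι : (Σ _ : k[X], k[X]) → (Σ _ : ℕ, k[X] × k[X]) :=
      fun x => ⟨x.2.natDegree, (x.2, x.1 / x.2)⟩ with hι
    set T := (Icc 1 n).sigma fun d => Irn k d ×ˢ Dn Δ (n - d) with hT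
    have hinj : Set.InjOn ι ((Dn Δ n).sigma pr : Set (Σ _ : k[X], k[X])) := by
      intro x hx y hy hxy
      have hx' := mem_sigma.1 (mem_coe.1 hx)
      have hy' := mem_sigma.1 (mem_coe.1 hy)
      obtain ⟨ex, _⟩ := split h2 hΔ hx'.1 hx'.2
      obtain ⟨ey, _⟩ := split h2 hΔ hy'.1 hy'.2
      rw [hι] at hxy
      simp only [Sigma.mk.injEq, heq_eq_eq, Prod.mk.injEq] at hxy
      obtain ⟨x1, x2⟩ := x
      obtain ⟨y1, y2⟩ := y
      simp only at hxy ex ey
      obtain ⟨_, h3, h4⟩ := hxy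
      have : x1 = y1 := by rw [← ex, ← ey, h4, h3]
      subst this
      subst h3
      rfl
    have e3 : ∑ x ∈ (Dn Δ n).sigma pr, (x.2.natDegree : ℝ) * G (x.1 / x.2) ≤
        ∑ y ∈ T, (y.1 : ℝ) * G y.2.2 := by
      have : ∑ x ∈ (Dn Δ n).sigma pr, (x.2.natDegree : ℝ) * G (x.1 / x.2) =
          ∑ y ∈ ((Dn Δ n).sigma pr).image ι, (y.1 : ℝ) * G y.2.2 := by
        rw [sum_image hinj]
      rw [this]
      refine sum_le_sum_of_subset_of_nonneg ?_ fun y _ _ => mul_nonneg (Nat.cast_nonneg _) (hG0 _)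
      intro y hy
      obtain ⟨x, hx, rfl⟩ := mem_image.1 hy
      rw [mem_sigma] at hx
      obtain ⟨_, hI, h1', h2', hE, _⟩ := split h2 hΔ hx.1 hx.2
      rw [hT, mem_sigma]
      exact ⟨mem_Icc.2 ⟨h1', h2'⟩, mem_product.2 ⟨hI, hE⟩⟩
    have e4 : ∑ y ∈ T, (y.1 : ℝ) * G y.2.2 = ∑ d ∈ Icc 1 n, ((d : ℝ) * (Irn k d).card) * S (n - d) := by
      rw [hT, sum_sigma]
      refine sum_congr rfl fun d _ => ?_
      rw [sum_product]
      simp only
      rw [sum_const, nsmul_eq_mul, ← mul_sum]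
      rw [hS]
      ring
    rw [e1]
    refine e2.trans (e3.trans ?_)
    rw [e4]
    refine sum_le_sum fun d hd => ?_
    exact mul_le_mul_of_nonneg_right (h1 k hk d (mem_Icc.1 hd).1).1 (hS0 _)
  -- second inequality
  set U := (Icc 1 n).biUnion (Irn k) with hU
  have hB : ∑ j ∈ range n, S j / q ^ j ≤ ∏ P ∈ U, (1 + g P / q ^ P.natDegree) := by
    rw [prod_one_add]
    have e1 : ∑ j ∈ range n, S j / q ^ j =
        ∑ x ∈ (range n).sigma (Dn Δ), ∏ P ∈ pr x.2, g P / q ^ P.natDegree := by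
      rw [sum_sigma]
      refine sum_congr rfl fun j hj => ?_
      rw [hS]
      simp only
      rw [sum_div]
      refine sum_congr rfl fun D hD => ?_
      rw [prod_div_distrib, prod_pow_eq_pow_sum, ((h2 k Δ hΔ).2.1 j D hD).2.1]
    have hinj : Set.InjOn (fun x : (Σ _ : ℕ, k[X]) => pr x.2) ((range n).sigma (Dn Δ) : Set (Σ _ : ℕ, k[X])) := by
      intro x hx y hy hxy
      have hx' := mem_sigma.1 (mem_coe.1 hx)
      have hy' := mem_sigma.1 (mem_coe.1 hy)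
      obtain ⟨x1, x2⟩ := x
      obtain ⟨y1, y2⟩ := y
      simp only at hx' hy' hxy
      have ex := (h2 k Δ hΔ).2.1 _ _ hx'.2
      have ey := (h2 k Δ hΔ).2.1 _ _ hy'.2
      have h3 : x2 = y2 := by rw [← ex.1, ← ey.1, hxy]
      have h4 : x1 = y1 := by rw [← ex.2.1, ← ey.2.1, hxy]
      subst h3
      subst h4
      rfl
    rw [e1]
    have : ∑ x ∈ (range n).sigma (Dn Δ), ∏ P ∈ pr x.2, g P / q ^ P.natDegree =
        ∑ t ∈ ((range n).sigma (Dn Δ)).image (fun x : (Σ _ : ℕ, k[X]) => pr x.2),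
          ∏ P ∈ t, g P / q ^ P.natDegree := by
      rw [sum_image hinj]
    rw [this]
    refine sum_le_sum_of_subset_of_nonneg ?_ fun t _ _ =>
      prod_nonneg fun P _ => div_nonneg (hg0 P) (pow_nonneg hq0.le _)
    intro t ht
    obtain ⟨x, hx, rfl⟩ := mem_image.1 ht
    rw [mem_sigma] at hx
    rw [mem_powerset]
    intro P hP
    obtain ⟨_, hI, h1', h2', _⟩ := split h2 hΔ hx.2 hP
    rw [hU, mem_biUnion]
    exact ⟨_, mem_Icc.2 ⟨h1', h2'.trans (mem_range.1 hx.1).le⟩, hI⟩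
  have hC : ∏ P ∈ U, (1 + g P / q ^ P.natDegree) ≤
      Real.exp (∑ d ∈ Icc 1 n, ∑ P ∈ Irn k d, g P / q ^ d) := by
    have e1 : ∑ d ∈ Icc 1 n, ∑ P ∈ Irn k d, g P / q ^ d = ∑ P ∈ U, g P / q ^ P.natDegree := by
      rw [hU, sum_biUnion]
      · refine sum_congr rfl fun d _ => sum_congr rfl fun P hP => ?_
        rw [(mem_Irn.1 hP).1.2]
      · intro a _ b _ hab
        rw [Function.onFun, disjoint_left]
        intro P hPa hPb
        exact hab ((mem_Irn.1 hPa).1.2.symm.trans (mem_Irn.1 hPb).1.2)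
    rw [e1, Real.exp_sum]
    refine prod_le_prod (fun P _ => by have := div_nonneg (hg0 P) (pow_nonneg hq0.le P.natDegree); linarith)
      fun P _ => ?_
    rw [add_comm]
    exact Real.add_one_le_exp _
  -- conclusion
  have hD : ∑ d ∈ Icc 1 n, q ^ d * S (n - d) = q ^ n * ∑ j ∈ range n, S j / q ^ j := by
    rw [mul_sum]
    refine sum_bij' (fun d _ => n - d) (fun j _ => n - j) ?_ ?_ ?_ ?_ ?_
    · intro d hd
      have := mem_Icc.1 hd
      exact mem_range.2 (by omega)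
    · intro j hj
      have := mem_range.1 hj
      exact mem_Icc.2 (by omega)
    · intro d hd
      have := mem_Icc.1 hd
      omega
    · intro j hj
      have := mem_range.1 hj
      omega
    · intro d hd
      have := mem_Icc.1 hd
      have h5 : q ^ n = q ^ d * q ^ (n - d) := by rw [← pow_add]; congr 1; omega
      rw [h5]
      have h6 : q ^ (n - d) ≠ 0 := pow_ne_zero _ hq0.ne'
      field_simp
  have hn0 : (0 : ℝ) < n := by exact_mod_cast hn
  have hfin : (n : ℝ) * S n ≤ q ^ n * Real.exp (∑ d ∈ Icc 1 n, ∑ P ∈ Irn k d, g P / q ^ d) := by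
    refine hA.trans ?_
    rw [hD]
    exact mul_le_mul_of_nonneg_left (hB.trans hC) (pow_nonneg hq0.le _)
  show S n ≤ _
  rw [div_mul_eq_mul_div, le_div_iff₀ hn0, mul_comm]
  exact hfin

end Pool.Agent.Q58.GR
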