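import Pool.Agent.Q269.GR.StD

/-!
# Project GR, job TYA: almost all twists are typical (A)
-/

set_option autoImplicit false
set_option linter.all false

open scoped Classical
open Finset Polynomial

namespace Pool.Agent.Q58.GR.TYA

open Pool.Agent.Q269.GR
open Pool.Agent.H341R2.Sharp (Mon mem_Mon)

theorem mem_Irn {k : Type} [Field k] [Fintype k] {d : ℕ} {P : k[X]} :
    P ∈ Irn k d ↔ (P.Monic ∧ P.natDegree = d) ∧ Irreducible P := by
  rw [Irn, mem_filter, mem_Mon]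

theorem H_le (n : ℕ) : ∑ d ∈ Icc 1 n, 1 / (d : ℝ) ≤ 1 + Real.log n := by
  have h := harmonic_le_one_add_log n
  rw [harmonic_eq_sum_Icc] at h
  push_cast at h
  simpa [one_div] using h

theorem le_H (n : ℕ) : Real.log (n + 1) ≤ ∑ d ∈ Icc 1 n, 1 / (d : ℝ) := by
  have h := log_add_one_le_harmonic n
  rw [harmonic_eq_sum_Icc] at h
  push_cast at h
  simpa [one_div] using h

theorem low_le (n z : ℕ) (hz : 1 ≤ z) :
    ∑ d ∈ (Icc 1 n).filter (fun d => d ≤ z ^ 40), 1 / (d : ℝ) ≤ 1 + 40 * Real.log z := by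
  have h1 : ∑ d ∈ (Icc 1 n).filter (fun d => d ≤ z ^ 40), 1 / (d : ℝ) ≤
      ∑ d ∈ Icc 1 (z ^ 40), 1 / (d : ℝ) := by
    refine sum_le_sum_of_subset_of_nonneg ?_ fun _ _ _ => by positivity
    intro d hd
    rw [mem_filter, mem_Icc] at hd
    exact mem_Icc.2 ⟨hd.1.1, hd.2⟩
  refine h1.trans ((H_le _).trans ?_)
  push_cast
  rw [Real.log_pow]
  norm_num

theorem mult_ge (n t r : ℕ) (hn : 1 ≤ n) (ht : 10 ≤ t) (hr : 1 < r) (hrt : r ≤ t ^ 8)
    (hlog : (t : ℝ) ^ 10 ≤ Real.log n) :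
    (9 / 10 : ℝ) * t ^ 2 ≤
      ∑ d ∈ (Icc 1 n).filter (fun d => t ^ 40 < d ∧ r ∣ d), 1 / (d : ℝ) := by
  have hr0 : (0 : ℝ) < r := by exact_mod_cast (by omega : 0 < r)
  have ht0 : (10 : ℝ) ≤ t := by exact_mod_cast ht
  have hn0 : (0 : ℝ) < n := by exact_mod_cast hn
  have h1 : ∑ m ∈ Icc 1 (n / r), 1 / (m : ℝ) =
      ∑ m ∈ (Icc 1 (n / r)).filter (fun d => d ≤ t ^ 40), 1 / (m : ℝ) +
      ∑ m ∈ (Icc 1 (n / r)).filter (fun d => ¬ d ≤ t ^ 40), 1 / (m : ℝ) :=
    (sum_filter_add_sum_filter_not _ _ _).symm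
  have h2 := low_le (n / r) t (by omega)
  have h3 : (1 / (r : ℝ)) * ∑ m ∈ (Icc 1 (n / r)).filter (fun d => ¬ d ≤ t ^ 40), 1 / (m : ℝ) ≤
      ∑ d ∈ (Icc 1 n).filter (fun d => t ^ 40 < d ∧ r ∣ d), 1 / (d : ℝ) := by
    rw [mul_sum]
    have : ∑ m ∈ (Icc 1 (n / r)).filter (fun d => ¬ d ≤ t ^ 40), 1 / (r : ℝ) * (1 / (m : ℝ)) =
        ∑ d ∈ ((Icc 1 (n / r)).filter (fun d => ¬ d ≤ t ^ 40)).image (fun m => r * m), 1 / (d : ℝ) := by
      rw [sum_image]
      · refine sum_congr rfl fun m _ => ?_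
        push_cast
        rw [one_div_mul_one_div]
      · intro x _ y _ hxy
        exact Nat.eq_of_mul_eq_mul_left (by omega) hxy
    rw [this]
    refine sum_le_sum_of_subset_of_nonneg ?_ fun _ _ _ => by positivity
    intro d hd
    obtain ⟨m, hm, rfl⟩ := mem_image.1 hd
    rw [mem_filter, mem_Icc] at hm
    rw [mem_filter, mem_Icc]
    obtain ⟨⟨hm1, hm2⟩, hm3⟩ := hm
    have h4 : m ≤ r * m := Nat.le_mul_of_pos_left m (by omega)
    refine ⟨⟨by omega, ?_⟩, by omega, dvd_mul_right _ _⟩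
    exact (Nat.mul_le_mul_left r hm2).trans (Nat.mul_div_le n r)
  have h4 := le_H (n / r)
  have h5 : Real.log n - 8 * Real.log t ≤ Real.log (((n / r : ℕ) : ℝ) + 1) := by
    have h6 : (n : ℝ) / r ≤ ((n / r : ℕ) : ℝ) + 1 := by
      rw [div_le_iff₀ hr0]
      have : n < (n / r + 1) * r := Nat.lt_mul_of_div_lt (by omega) (by omega)
      exact_mod_cast this.le
    have h7 : Real.log ((n : ℝ) / r) ≤ Real.log (((n / r : ℕ) : ℝ) + 1) :=
      Real.log_le_log (by positivity) h6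
    rw [Real.log_div hn0.ne' hr0.ne'] at h7
    have h8 : Real.log r ≤ 8 * Real.log t := by
      have : Real.log (r : ℝ) ≤ Real.log ((t : ℝ) ^ 8) :=
        Real.log_le_log hr0 (by exact_mod_cast hrt)
      rw [Real.log_pow] at this
      exact_mod_cast this
    linarith
  have h6 : Real.log (t : ℝ) ≤ t := (Real.log_le_sub_one_of_pos (by linarith)).trans (by linarith)
  have h7 : (9 / 10 : ℝ) * t ^ 10 ≤ ∑ m ∈ (Icc 1 (n / r)).filter (fun d => ¬ d ≤ t ^ 40), 1 / (m : ℝ) := by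
    have h8 : (10 : ℝ) ^ 9 ≤ (t : ℝ) ^ 9 := pow_le_pow_left₀ (by norm_num) ht0 9
    have h9 : (t : ℝ) ^ 10 = t * t ^ 9 := by ring
    have h10 : (t : ℝ) * 10 ^ 9 ≤ t ^ 10 := by
      rw [h9]; exact mul_le_mul_of_nonneg_left h8 (by linarith)
    norm_num at h10
    linarith
  have h8 : (r : ℝ) ≤ (t : ℝ) ^ 8 := by exact_mod_cast hrt
  have h9 : (9 / 10 : ℝ) * t ^ 2 ≤ (1 / (r : ℝ)) * ((9 / 10 : ℝ) * t ^ 10) := by
    rw [one_div_mul_eq_div, le_div_iff₀ hr0]
    have : (t : ℝ) ^ 10 = t ^ 2 * t ^ 8 := by ring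
    rw [this]
    have h11 : (t : ℝ) ^ 2 * r ≤ t ^ 2 * t ^ 8 := mul_le_mul_of_nonneg_left h8 (by positivity)
    linarith
  exact h9.trans ((mul_le_mul_of_nonneg_left h7 (by positivity)).trans h3)

section
variable {k : Type} [Field k] [Fintype k]

/-- one order -/
theorem one_order (h3 : S_HTB) (h4 : S_IRC) (hk : 5 ≤ Fintype.card k) {Δ : k[X]} (hΔ : Δ ≠ 0)
    (n t r : ℕ) (hn : 1 ≤ n) (ht : 10 ≤ t) (hr : 1 < r) (hrt : r ≤ t ^ 8)
    (hlog : (t : ℝ) ^ 10 ≤ Real.log n) :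
    (((Dn Δ n).filter fun D =>
        8 * ((pr D).filter fun P => t ^ 40 < P.natDegree ∧ r ∣ P.natDegree).card < t ^ 2).card : ℝ) ≤
      (Fintype.card k : ℝ) ^ n * Real.exp (1 - t) := by
  set q : ℝ := (Fintype.card k : ℝ) with hq
  have hq5 : (5 : ℝ) ≤ q := by rw [hq]; exact_mod_cast hk
  have hq0 : 0 < q := by linarith
  have ht0 : (10 : ℝ) ≤ t := by exact_mod_cast ht
  have hn0 : (0 : ℝ) < n := by exact_mod_cast hn
  set g : k[X] → ℝ := fun P => if t ^ 40 < P.natDegree ∧ r ∣ P.natDegree then 1 / 2 else 1 with hg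
  have hg01 : ∀ P, 0 ≤ g P ∧ g P ≤ 1 := by
    intro P
    rw [hg]
    simp only
    split_ifs <;> norm_num
  have key := h3 k hk Δ hΔ g hg01 n hn
  rw [← hq] at key
  have hexp : ∑ d ∈ Icc 1 n, ∑ P ∈ Irn k d, g P / q ^ d ≤ 1 + Real.log n - (9 / 20) * t ^ 2 := by
    have e1 : ∀ d ∈ Icc 1 n, ∑ P ∈ Irn k d, g P / q ^ d ≤
        1 / (d : ℝ) - (1 / 2) * (if t ^ 40 < d ∧ r ∣ d then 1 / (d : ℝ) else 0) := by
      intro d hd
      have hd1 := (mem_Icc.1 hd).1
      have hd0 : (0 : ℝ) < d := by exact_mod_cast hd1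
      have e2 : ∑ P ∈ Irn k d, g P / q ^ d =
          (Irn k d).card * ((if t ^ 40 < d ∧ r ∣ d then 1 / 2 else 1) / q ^ d) := by
        rw [← nsmul_eq_mul, ← sum_const]
        refine sum_congr rfl fun P hP => ?_
        rw [hg]
        simp only
        rw [(mem_Irn.1 hP).1.2]
      have e3 : ((Irn k d).card : ℝ) / q ^ d ≤ 1 / d := by
        rw [div_le_div_iff₀ (pow_pos hq0 _) hd0, one_mul, mul_comm]
        exact (h4 k hk d hd1).1
      rw [e2]
      split_ifs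
      · have : ((Irn k d).card : ℝ) * (1 / 2 / q ^ d) = (1 / 2) * ((Irn k d).card / q ^ d) := by ring
        rw [this]
        linarith
      · have : ((Irn k d).card : ℝ) * (1 / q ^ d) = (Irn k d).card / q ^ d := by ring
        rw [this]
        linarith
    refine (sum_le_sum e1).trans ?_
    rw [sum_sub_distrib, ← mul_sum, ← sum_filter]
    have := mult_ge n t r hn ht hr hrt hlog
    have := H_le n
    linarith
  have hlow : ∀ D ∈ (Dn Δ n).filter (fun D =>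
        8 * ((pr D).filter fun P => t ^ 40 < P.natDegree ∧ r ∣ P.natDegree).card < t ^ 2),
      Real.exp (-((1 / 10) * t ^ 2)) ≤ ∏ P ∈ pr D, g P := by
    intro D hD
    have hD2 := (mem_filter.1 hD).2
    set c := ((pr D).filter fun P => t ^ 40 < P.natDegree ∧ r ∣ P.natDegree).card with hc
    have e1 : ∏ P ∈ pr D, g P = (1 / 2 : ℝ) ^ c := by
      rw [hg]
      simp only
      rw [prod_ite, prod_const_one, mul_one, prod_const]
    rw [e1]
    have e2 : (1 / 2 : ℝ) ^ c = Real.exp (-(c * Real.log 2)) := by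
      rw [Real.exp_neg, ← Real.log_pow, Real.exp_log (by positivity), one_div, inv_pow]
    rw [e2, Real.exp_le_exp]
    have h5 : (8 : ℝ) * c ≤ t ^ 2 := by exact_mod_cast hD2.le
    have h6 := Real.log_two_lt_d9
    have h7 : (0 : ℝ) ≤ c := Nat.cast_nonneg _
    nlinarith
  have hsum : (((Dn Δ n).filter fun D =>
        8 * ((pr D).filter fun P => t ^ 40 < P.natDegree ∧ r ∣ P.natDegree).card < t ^ 2).card : ℝ) *
      Real.exp (-((1 / 10) * t ^ 2)) ≤ ∑ D ∈ Dn Δ n, ∏ P ∈ pr D, g P := by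
    rw [← nsmul_eq_mul, ← sum_const]
    refine (sum_le_sum hlow).trans ?_
    exact sum_le_sum_of_subset_of_nonneg (filter_subset _ _) fun D _ _ =>
      prod_nonneg fun P _ => (hg01 P).1
  have hfin := hsum.trans (key.trans (mul_le_mul_of_nonneg_left (Real.exp_le_exp.2 hexp)
    (by positivity)))
  have e3 : q ^ n / n * Real.exp (1 + Real.log n - 9 / 20 * t ^ 2) =
      q ^ n * Real.exp (1 - 9 / 20 * t ^ 2) := by
    have : 1 + Real.log n - 9 / 20 * (t : ℝ) ^ 2 = Real.log n + (1 - 9 / 20 * t ^ 2) := by ring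
    rw [this, Real.exp_add, Real.exp_log hn0]
    field_simp
  rw [e3] at hfin
  have e4 : Real.exp (1 - 9 / 20 * (t : ℝ) ^ 2) ≤
      Real.exp (1 - t) * Real.exp (-((1 / 10) * t ^ 2)) := by
    rw [← Real.exp_add, Real.exp_le_exp]
    nlinarith
  have e5 := hfin.trans (mul_le_mul_of_nonneg_left e4 (by positivity : (0 : ℝ) ≤ q ^ n))
  rw [← mul_assoc] at e5
  exact le_of_mul_le_mul_right e5 (Real.exp_pos _)

/-- the bound for one `n` -/
theorem one_n (h1 : S_TNP) (h2 : S_AVP) (h3 : S_HTB) (h4 : S_IRC) (hk : 5 ≤ Fintype.card k)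
    {Δ : k[X]} (hΔ : Δ ≠ 0) (n : ℕ) (hn : 1 ≤ n) (ht : 10 ≤ tn n) :
    ((Dn Δ n \ XA Δ n).card : ℝ) ≤ (Fintype.card k : ℝ) ^ n *
      (2000 / (tn n : ℝ) ^ 2 + 200 * (1 + 40 * Real.log (tn n)) / tn n + 1 / (tn n : ℝ) +
        (tn n : ℝ) ^ 8 * Real.exp (1 - tn n)) := by
  obtain ⟨hlog, hlog2⟩ := h1.2 n hn
  set t := tn n with htn
  set q : ℝ := (Fintype.card k : ℝ) with hq
  have hq5 : (5 : ℝ) ≤ q := by rw [hq]; exact_mod_cast hk
  have hq0 : 0 < q := by linarith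
  have ht0 : (10 : ℝ) ≤ t := by exact_mod_cast ht
  have htp : (0 : ℝ) < t := by linarith
  have hn0 : (0 : ℝ) < n := by exact_mod_cast hn
  have hQ : (0 : ℝ) ≤ q ^ n := by positivity
  obtain ⟨_, hW, hZ⟩ := h2 k hk Δ hΔ n hn
  rw [← hq] at hW hZ
  set B1 := (Dn Δ n).filter fun D => ¬ (pr D).card ≤ t ^ 12 with hB1
  set B2 := (Dn Δ n).filter fun D => ¬ 100 * ((pr D).filter fun P => P.natDegree ≤ t ^ 40).card ≤ t with hB2
  set B3 := (Dn Δ n).filter fun D => ∃ P ∈ pr D, ∃ P' ∈ pr D, t ^ 40 < P.natDegree ∧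
    P.natDegree = P'.natDegree ∧ P ≠ P' with hB3
  set B4 : ℕ → Finset k[X] := fun r => (Dn Δ n).filter fun D =>
        8 * ((pr D).filter fun P => t ^ 40 < P.natDegree ∧ r ∣ P.natDegree).card < t ^ 2 with hB4
  have hsub : Dn Δ n \ XA Δ n ⊆ B1 ∪ B2 ∪ B3 ∪ (Icc 2 (t ^ 8)).biUnion B4 := by
    intro D hD
    rw [mem_sdiff] at hD
    obtain ⟨hD1, hD2⟩ := hD
    by_contra hcon
    rw [mem_union, mem_union, mem_union, not_or, not_or, not_or] at hcon
    obtain ⟨⟨⟨c1, c2⟩, c3⟩, c4⟩ := hcon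
    apply hD2
    rw [XA, mem_filter]
    refine ⟨hD1, ?_, ?_, ?_, ?_⟩
    · by_contra h
      exact c1 (mem_filter.2 ⟨hD1, h⟩)
    · by_contra h
      exact c2 (mem_filter.2 ⟨hD1, h⟩)
    · intro P hP P' hP' hz he
      by_contra h
      exact c3 (mem_filter.2 ⟨hD1, P, hP, P', hP', hz, he, h⟩)
    · intro r _ hr1 hr2
      by_contra h
      apply c4
      rw [mem_biUnion]
      exact ⟨r, mem_Icc.2 ⟨hr1, hr2⟩, mem_filter.2 ⟨hD1, not_le.1 h⟩⟩
  have hcard : ((Dn Δ n \ XA Δ n).card : ℝ) ≤ B1.card + B2.card + B3.card +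
      ∑ r ∈ Icc 2 (t ^ 8), ((B4 r).card : ℝ) := by
    have e1 := card_le_card hsub
    have e2 := card_union_le (B1 ∪ B2 ∪ B3) ((Icc 2 (t ^ 8)).biUnion B4)
    have e3 := card_union_le (B1 ∪ B2) B3
    have e4 := card_union_le B1 B2
    have e5 : ((Icc 2 (t ^ 8)).biUnion B4).card ≤ ∑ r ∈ Icc 2 (t ^ 8), (B4 r).card := card_biUnion_le
    have : (Dn Δ n \ XA Δ n).card ≤ B1.card + B2.card + B3.card + ∑ r ∈ Icc 2 (t ^ 8), (B4 r).card := by
      omega
    exact_mod_cast this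
  have k1 : (B1.card : ℝ) ≤ q ^ n * (2000 / (t : ℝ) ^ 2) := by
    have e1 : (B1.card : ℝ) * t ^ 12 ≤ ∑ D ∈ Dn Δ n, ((pr D).card : ℝ) := by
      rw [← nsmul_eq_mul, ← sum_const]
      refine (sum_le_sum fun D hD => ?_).trans
        (sum_le_sum_of_subset_of_nonneg (filter_subset (fun D => ¬ (pr D).card ≤ t ^ 12) _)
          fun D _ _ => Nat.cast_nonneg _)
      have := not_le.1 (mem_filter.1 hD).2
      exact_mod_cast this.le
    have e2 : ∑ D ∈ Dn Δ n, ((pr D).card : ℝ) ≤ q ^ n * ∑ d ∈ Icc 1 n, 1 / (d : ℝ) := by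
      have := hW (fun _ => True)
      simpa using this
    have e3 := H_le n
    have e4 : (1 : ℝ) + Real.log n ≤ 2000 * t ^ 10 := by
      have h5 : ((t : ℝ) + 1) ^ 10 ≤ (2 * t) ^ 10 := pow_le_pow_left₀ (by linarith) (by linarith) 10
      have h6 : (2 * (t : ℝ)) ^ 10 = 1024 * t ^ 10 := by ring
      have h7 : (1 : ℝ) ≤ (t : ℝ) ^ 10 := one_le_pow₀ (by linarith)
      linarith
    have e5 : (B1.card : ℝ) * t ^ 12 ≤ q ^ n * (2000 * t ^ 10) :=
      e1.trans (e2.trans (mul_le_mul_of_nonneg_left (e3.trans e4) hQ))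
    rw [← mul_div_assoc, le_div_iff₀ (by positivity)]
    have h8 : (B1.card : ℝ) * t ^ 12 = (B1.card * t ^ 2) * t ^ 10 := by ring
    rw [h8, ← mul_assoc] at e5
    exact le_of_mul_le_mul_right e5 (by positivity)
  have k2 : (B2.card : ℝ) ≤ q ^ n * (200 * (1 + 40 * Real.log t) / t) := by
    have e1 : (B2.card : ℝ) * (t / 100) ≤
        ∑ D ∈ Dn Δ n, (((pr D).filter fun P => P.natDegree ≤ t ^ 40).card : ℝ) := by
      rw [← nsmul_eq_mul, ← sum_const]
      refine (sum_le_sum fun D hD => ?_).trans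
        (sum_le_sum_of_subset_of_nonneg (filter_subset
          (fun D => ¬ 100 * ((pr D).filter fun P => P.natDegree ≤ t ^ 40).card ≤ t) _)
          fun D _ _ => Nat.cast_nonneg _)
      have := not_le.1 (mem_filter.1 hD).2
      have h5 : (t : ℝ) ≤ 100 * ((pr D).filter fun P => P.natDegree ≤ t ^ 40).card := by
        exact_mod_cast this.le
      linarith
    have e2 : ∑ D ∈ Dn Δ n, (((pr D).filter fun P => P.natDegree ≤ t ^ 40).card : ℝ) ≤
        q ^ n * ∑ d ∈ (Icc 1 n).filter (fun d => d ≤ t ^ 40), 1 / (d : ℝ) := by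
      convert hW (fun d => d ≤ t ^ 40)
    have e3 := low_le n t (by omega)
    have e5 : (B2.card : ℝ) * (t / 100) ≤ q ^ n * (1 + 40 * Real.log t) :=
      e1.trans (e2.trans (mul_le_mul_of_nonneg_left e3 hQ))
    have hl : 0 ≤ Real.log (t : ℝ) := Real.log_nonneg (by linarith)
    rw [← mul_div_assoc, le_div_iff₀ (by positivity)]
    have h6 : 0 ≤ q ^ n * (1 + 40 * Real.log t) := by positivity
    nlinarith
  have k3 : (B3.card : ℝ) ≤ q ^ n * (1 / (t : ℝ)) := by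
    have e1 := hZ (t ^ 40) (Nat.one_le_pow _ _ (by omega))
    refine e1.trans ?_
    push_cast
    rw [mul_one_div]
    refine div_le_div_of_nonneg_left hQ htp ?_
    exact le_self_pow₀ (by linarith) (by norm_num)
  have k4 : ∑ r ∈ Icc 2 (t ^ 8), ((B4 r).card : ℝ) ≤ q ^ n * ((t : ℝ) ^ 8 * Real.exp (1 - t)) := by
    have e1 : ∀ r ∈ Icc 2 (t ^ 8), ((B4 r).card : ℝ) ≤ q ^ n * Real.exp (1 - t) := by
      intro r hr
      have := mem_Icc.1 hr
      exact one_order h3 h4 hk hΔ n t r hn ht (by omega) this.2 hlog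
    refine (sum_le_sum e1).trans ?_
    rw [sum_const, nsmul_eq_mul, Nat.card_Icc]
    have h5 : ((t ^ 8 + 1 - 2 : ℕ) : ℝ) ≤ (t : ℝ) ^ 8 := by
      have : t ^ 8 + 1 - 2 ≤ t ^ 8 := by omega
      exact_mod_cast this
    have h6 : 0 ≤ q ^ n * Real.exp (1 - t) := by positivity
    calc ((t ^ 8 + 1 - 2 : ℕ) : ℝ) * (q ^ n * Real.exp (1 - t)) ≤ (t : ℝ) ^ 8 * (q ^ n * Real.exp (1 - t)) :=
          mul_le_mul_of_nonneg_right h5 h6
      _ = _ := by ring
  linarith

end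

theorem t_TYA (h1 : S_TNP) (h2 : S_AVP) (h3 : S_HTB) (h4 : S_IRC) : S_TYA := by
  intro k _ _ hk Δ hΔ ε hε
  have hlim : Filter.Tendsto (fun x : ℝ => 2000 / x ^ 2 + 200 * (1 + 40 * Real.log x) / x + 1 / x +
      x ^ 8 * Real.exp (1 - x)) Filter.atTop (nhds 0) := by
    have l1 : Filter.Tendsto (fun x : ℝ => 2000 / x ^ 2) Filter.atTop (nhds 0) :=
      Filter.Tendsto.div_atTop tendsto_const_nhds (Filter.tendsto_pow_atTop (by norm_num))
    have l3 : Filter.Tendsto (fun x : ℝ => 1 / x) Filter.atTop (nhds 0) :=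
      Filter.Tendsto.div_atTop tendsto_const_nhds Filter.tendsto_id
    have l2' : Filter.Tendsto (fun x : ℝ => Real.log x / x) Filter.atTop (nhds 0) := by
      have := Real.isLittleO_log_id_atTop.tendsto_div_nhds_zero
      simpa using this
    have l2 : Filter.Tendsto (fun x : ℝ => 200 * (1 + 40 * Real.log x) / x) Filter.atTop (nhds 0) := by
      have h5 := (l3.const_mul 200).add (l2'.const_mul 8000)
      have h6 : (fun x : ℝ => 200 * (1 + 40 * Real.log x) / x) =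
          fun x => 200 * (1 / x) + 8000 * (Real.log x / x) := by
        funext x; ring
      rw [h6]
      simpa using h5
    have l4 : Filter.Tendsto (fun x : ℝ => x ^ 8 * Real.exp (1 - x)) Filter.atTop (nhds 0) := by
      have h5 := (Real.tendsto_pow_mul_exp_neg_atTop_nhds_zero 8).const_mul (Real.exp 1)
      have h6 : (fun x : ℝ => x ^ 8 * Real.exp (1 - x)) =
          fun x => Real.exp 1 * (x ^ 8 * Real.exp (-x)) := by
        funext x
        rw [sub_eq_add_neg, Real.exp_add]; ring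
      rw [h6]
      simpa using h5
    simpa using ((l1.add l2).add l3).add l4
  have hlim2 := hlim.comp (tendsto_natCast_atTop_atTop.comp h1.1)
  have hev := (hlim2.eventually (gt_mem_nhds hε)).and
    ((h1.1.eventually_ge_atTop 10).and (Filter.eventually_ge_atTop 1))
  filter_upwards [hev] with n hn
  obtain ⟨e1, e2, e3⟩ := hn
  refine (one_n h1 h2 h3 h4 hk hΔ n e3 e2).trans ?_
  rw [mul_comm]
  refine mul_le_mul_of_nonneg_right ?_ (by positivity)
  exact (le_of_lt e1)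

end Pool.Agent.Q58.GR.TYA
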