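import Pool.Agent.Q269.GR.StD

/-!
# Project GR, job DEC: decomposition into cells
-/

set_option autoImplicit false
set_option linter.all false

open scoped Classical
open Finset Polynomial

namespace Pool.Agent.Q58.GR.DEC

open Pool.Agent.Q269.GR
open Pool.Agent.H341R2.Sharp (Mon mem_Mon)

section
variable {k : Type} [Field k] [Fintype k] {Δ : k[X]}

/-- the label of the cell of `D` -/
noncomputable def ka (μ : ℕ → Prop) (D : k[X]) : k[X] × Finset ℕ :=
  (∏ P ∈ (pr D).filter (fun P => ¬ μ P.natDegree), P,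
    ((pr D).filter (fun P => μ P.natDegree)).image fun P => P.natDegree)

/-- the moving indices -/
noncomputable def mvs (μ : ℕ → Prop) {m : ℕ} (P0 : Fin m → k[X]) : Finset (Fin m) :=
  univ.filter fun i => μ (dg P0 i)

theorem mem_mvs (μ : ℕ → Prop) {m : ℕ} (P0 : Fin m → k[X]) (i : Fin m) :
    i ∈ mvs μ P0 ↔ μ (dg P0 i) := by
  rw [mvs, mem_filter]
  simp

theorem ka_cell (h : S_PRD) (hΔ : Δ ≠ 0) (μ : ℕ → Prop) {m : ℕ} (P0 T : Fin m → k[X])
    (hT : Pfam Δ T) (hd : ∀ i, (T i).natDegree = dg P0 i) (hf : ∀ i, i ∉ mvs μ P0 → T i = P0 i) :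
    ka μ (∏ i, T i) = (∏ i ∈ univ.filter (fun i => i ∉ mvs μ P0), P0 i, (mvs μ P0).image (dg P0)) := by
  have e1 := ((h k Δ hΔ).1 (Fin m) T hT).1
  rw [ka, e1]
  refine Prod.ext ?_ ?_
  · show ∏ P ∈ (univ.image T).filter (fun P => ¬ μ P.natDegree), P = _
    rw [filter_image, prod_image (fun x _ y _ hxy => hT.inj hxy)]
    have e2 : (univ.filter fun i => ¬ μ (T i).natDegree) = univ.filter (fun i => i ∉ mvs μ P0) := by
      ext i
      rw [mem_filter, mem_filter, mem_mvs, hd]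
    rw [e2]
    exact prod_congr rfl fun i hi => hf i (mem_filter.1 hi).2
  · show ((univ.image T).filter (fun P => μ P.natDegree)).image (fun P => P.natDegree) = _
    ext d
    rw [mem_image, mem_image]
    constructor
    · rintro ⟨P, hP, rfl⟩
      rw [mem_filter, mem_image] at hP
      obtain ⟨⟨i, _, rfl⟩, hμ⟩ := hP
      exact ⟨i, (mem_mvs μ P0 i).2 (by rw [← hd]; exact hμ), (hd i).symm⟩
    · rintro ⟨i, hi, rfl⟩
      refine ⟨T i, mem_filter.2 ⟨mem_image.2 ⟨i, mem_univ _, rfl⟩, ?_⟩, hd i⟩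
      rw [hd]
      exact (mem_mvs μ P0 i).1 hi

/-- a sorted enumeration -/
theorem exists_enum (S : Finset k[X]) : ∃ (m : ℕ) (P0 : Fin m → k[X]), Function.Injective P0 ∧
    univ.image P0 = S ∧ ∀ i j, i ≤ j → dg P0 i ≤ dg P0 j := by
  let e := S.equivFin.symm
  let f : Fin S.card → ℕ := fun i => (e i).1.natDegree
  let σ := Tuple.sort f
  refine ⟨S.card, fun i => (e (σ i)).1, ?_, ?_, ?_⟩
  · intro i j hij
    exact σ.injective (e.injective (Subtype.ext hij))
  · ext P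
    rw [mem_image]
    constructor
    · rintro ⟨i, _, rfl⟩
      exact (e (σ i)).2
    · intro hP
      refine ⟨σ.symm (e.symm ⟨P, hP⟩), mem_univ _, ?_⟩
      simp
  · intro i j hij
    exact Tuple.monotone_sort f hij

theorem fibre (h : S_PRD) (hΔ : Δ ≠ 0) (μ : ℕ → Prop) (n : ℕ) (X : Finset k[X])
    (hμ : ∀ d, μ d → Δ.natDegree < d) (hX : X ⊆ Dn Δ n)
    (hX1 : ∀ D ∈ X, ∀ P ∈ pr D, ∀ P' ∈ pr D, μ P.natDegree → P.natDegree = P'.natDegree → P = P')
    (hX2 : ∀ (m : ℕ) (P0 : Fin m → k[X]), IsCe Δ P0 (univ.filter fun i => μ (dg P0 i)) →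
      ∏ i, P0 i ∈ X →
      ∀ T ∈ Fintype.piFinset (Ce P0 (univ.filter fun i => μ (dg P0 i))), ∏ i, T i ∈ X)
    (D0 : k[X]) (hD0 : D0 ∈ X) : ∃ (m : ℕ) (P0 : Fin m → k[X]),
      IsCe Δ P0 (univ.filter fun i => μ (dg P0 i)) ∧ ∏ i, P0 i ∈ X ∧
      ∀ φ : k[X] → ℝ, ∑ D ∈ X.filter (fun D => ka μ D = ka μ D0), φ D =
        ∑ T ∈ Fintype.piFinset (Ce P0 (univ.filter fun i => μ (dg P0 i))), φ (∏ i, T i) := by
  obtain ⟨m, P0, hinj, himg, hmono⟩ := exists_enum (pr D0)
  have hP := (h k Δ hΔ).2.1 n D0 (hX hD0)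
  have hmem : ∀ i, P0 i ∈ pr D0 := fun i => by rw [← himg]; exact mem_image_of_mem _ (mem_univ _)
  have hprod : ∏ i, P0 i = D0 := by
    rw [← hP.1, ← himg, prod_image (fun x _ y _ hxy => hinj hxy)]
  have hPf : Pfam Δ P0 := by
    have h3 := (h k Δ hΔ).2.2.1 n D0 (hX hD0)
    exact ⟨fun i => h3.mon ⟨P0 i, hmem i⟩, fun i => h3.irr ⟨P0 i, hmem i⟩, hinj,
      fun i => h3.cop ⟨P0 i, hmem i⟩⟩
  have hCe : IsCe Δ P0 (mvs μ P0) := by
    refine ⟨hPf, ?_, ?_, ?_⟩
    · intro i hi j hj hij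
      refine lt_of_le_of_ne (hmono i j hij.le) fun he => ?_
      exact hij.ne (hinj (hX1 D0 hD0 _ (hmem i) _ (hmem j) ((mem_mvs μ P0 i).1 hi) he))
    · intro i hi j hj he
      apply hj
      rw [mem_mvs, ← he]
      exact (mem_mvs μ P0 i).1 hi
    · intro i hi
      exact hμ _ ((mem_mvs μ P0 i).1 hi)
  have hCT := (h k Δ hΔ).2.2.2.2.2 m P0 (mvs μ P0) hCe
  have hκ0 : ka μ D0 = (∏ i ∈ univ.filter (fun i => i ∉ mvs μ P0), P0 i, (mvs μ P0).image (dg P0)) := by
    rw [← hprod]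
    exact ka_cell h hΔ μ P0 P0 hPf (fun i => rfl) (fun i _ => rfl)
  have hminj : ∀ i ∈ mvs μ P0, ∀ j ∈ mvs μ P0, dg P0 i = dg P0 j → i = j := by
    intro i hi j hj he
    rcases lt_trichotomy i j with hlt | rfl | hlt
    · exact absurd he (hCe.mono i hi j hj hlt).ne
    · rfl
    · exact absurd he.symm (hCe.mono j hj i hi hlt).ne
  refine ⟨m, P0, hCe, hprod ▸ hD0, fun φ => ?_⟩
  symm
  refine sum_bij (fun T _ => ∏ i, T i) ?_ ?_ ?_ (fun _ _ => rfl)
  · intro T hT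
    obtain ⟨c1, c2, c3⟩ := hCT T hT
    rw [mem_filter]
    refine ⟨hX2 m P0 hCe (hprod ▸ hD0) T hT, ?_⟩
    rw [hκ0]
    exact ka_cell h hΔ μ P0 T c1 c2 c3
  · intro T hT T' hT' he
    obtain ⟨c1, c2, c3⟩ := hCT T hT
    obtain ⟨c1', c2', c3'⟩ := hCT T' hT'
    have e1 := ((h k Δ hΔ).1 (Fin m) T c1).1
    have e2 := ((h k Δ hΔ).1 (Fin m) T' c1').1
    rw [he, e2] at e1
    funext i
    by_cases hi : i ∈ mvs μ P0
    · have : T i ∈ univ.image T' := by rw [e1]; exact mem_image_of_mem _ (mem_univ _)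
      obtain ⟨j, _, hj⟩ := mem_image.1 this
      have hdeg : dg P0 i = dg P0 j := by rw [← c2 i, ← c2' j, hj]
      have hj' : j ∈ mvs μ P0 := by
        rw [mem_mvs, ← hdeg]
        exact (mem_mvs μ P0 i).1 hi
      have := hminj i hi j hj' hdeg
      rw [← hj, this]
    · rw [c3 i hi, c3' i hi]
  · intro D hD
    rw [mem_filter, hκ0] at hD
    obtain ⟨hDX, hκ⟩ := hD
    have hk1 := congrArg Prod.fst hκ
    have hk2 := congrArg Prod.snd hκ
    simp only [ka] at hk1 hk2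
    have hPD := (h k Δ hΔ).2.1 n D (hX hDX)
    have hex : ∀ i ∈ mvs μ P0, ∃ P ∈ pr D, μ P.natDegree ∧ P.natDegree = dg P0 i := by
      intro i hi
      have : dg P0 i ∈ (mvs μ P0).image (dg P0) := mem_image_of_mem _ hi
      rw [← hk2] at this
      obtain ⟨P, hP1, hP2⟩ := mem_image.1 this
      rw [mem_filter] at hP1
      exact ⟨P, hP1.1, hP1.2, hP2⟩
    choose! R hR1 hR2 hR3 using hex
    set T : Fin m → k[X] := fun i => if i ∈ mvs μ P0 then R i else P0 i with hT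
    have hTm : ∀ i ∈ mvs μ P0, T i = R i := fun i hi => by rw [hT]; simp only; rw [if_pos hi]
    have hTf : ∀ i, i ∉ mvs μ P0 → T i = P0 i := fun i hi => by rw [hT]; simp only; rw [if_neg hi]
    refine ⟨T, ?_, ?_⟩
    · rw [Fintype.mem_piFinset]
      intro i
      show T i ∈ Ce P0 (mvs μ P0) i
      rw [Ce]
      by_cases hi : i ∈ mvs μ P0
      · rw [if_pos hi, hTm i hi, Irn, mem_filter, mem_Mon]
        have := (hPD.2.2 (R i)).1 (hR1 i hi)
        exact ⟨⟨this.1, hR3 i hi⟩, this.2.1⟩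
      · rw [if_neg hi, hTf i hi, mem_singleton]
    · show ∏ i, T i = D
      have e1 : ∏ i, T i = (∏ i ∈ univ.filter (fun i => i ∈ mvs μ P0), T i) *
          ∏ i ∈ univ.filter (fun i => ¬ i ∈ mvs μ P0), T i := (prod_filter_mul_prod_filter_not _ _ _).symm
      have e2 : ∏ P ∈ pr D, P = (∏ P ∈ (pr D).filter (fun P => μ P.natDegree), P) *
          ∏ P ∈ (pr D).filter (fun P => ¬ μ P.natDegree), P := (prod_filter_mul_prod_filter_not _ _ _).symm
      rw [← hPD.1, e1, e2, hk1]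
      congr 1
      · have e3 : (pr D).filter (fun P => μ P.natDegree) =
            (univ.filter (fun i => i ∈ mvs μ P0)).image T := by
          ext P
          rw [mem_filter, mem_image]
          constructor
          · rintro ⟨hP1, hP2⟩
            have : P.natDegree ∈ ((pr D).filter (fun P => μ P.natDegree)).image (fun P => P.natDegree) :=
              mem_image.2 ⟨P, mem_filter.2 ⟨hP1, hP2⟩, rfl⟩
            rw [hk2] at this
            obtain ⟨i, hi, hdi⟩ := mem_image.1 this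
            refine ⟨i, mem_filter.2 ⟨mem_univ _, hi⟩, ?_⟩
            rw [hTm i hi]
            exact (hX1 D hDX P hP1 (R i) (hR1 i hi) hP2 (by rw [hR3 i hi, hdi])).symm
          · rintro ⟨i, hi, rfl⟩
            have hi' := (mem_filter.1 hi).2
            rw [hTm i hi']
            exact ⟨hR1 i hi', hR2 i hi'⟩
        rw [e3, prod_image]
        intro x hx y hy hxy
        have hx' := (mem_filter.1 (mem_coe.1 hx)).2
        have hy' := (mem_filter.1 (mem_coe.1 hy)).2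
        rw [hTm x hx', hTm y hy'] at hxy
        exact hminj x hx' y hy' (by rw [← hR3 x hx', ← hR3 y hy', hxy])
      · exact prod_congr rfl fun i hi => hTf i (mem_filter.1 hi).2

end

theorem t_DEC (h : S_PRD) : S_DEC := by
  intro k _ _ Δ hΔ μ n X hμ hX hX1 hX2 φ ψ hφ
  have key : ∀ c ∈ X.image (ka μ), ∑ D ∈ X.filter (fun D => ka μ D = c), φ D ≤
      ∑ D ∈ X.filter (fun D => ka μ D = c), ψ D := by
    intro c hc
    obtain ⟨D0, hD0, rfl⟩ := mem_image.1 hc
    obtain ⟨m, P0, hC, hp, hs⟩ := fibre h hΔ μ n X hμ hX hX1 hX2 D0 hD0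
    rw [hs φ, hs ψ]
    exact hφ m P0 hC hp
  rw [← sum_fiberwise_of_maps_to (s := X) (t := X.image (ka μ)) (g := ka μ)
      (fun D hD => mem_image_of_mem _ hD) φ,
    ← sum_fiberwise_of_maps_to (s := X) (t := X.image (ka μ)) (g := ka μ)
      (fun D hD => mem_image_of_mem _ hD) ψ]
  exact sum_le_sum key

end Pool.Agent.Q58.GR.DEC
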